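import Mathlib
import Pool.Agent.N236.UR.Stm

/-!
# UR/GROW: growth of the distances in the subgroups of `r`-power order
-/

set_option autoImplicit false

namespace Pool.Agent.N727.UR

open Pool.Agent.N236.UB Pool.Agent.N236.UR

/-- Properties of a translation invariant ultrametric on the integers, of period `n`. -/
structure UM (n : ℕ) (D : ℤ → ℤ → ℝ) : Prop where
  tri : ∀ x y z : ℤ, D x y ≤ max (D x z) (D z y)
  shift : ∀ x y t : ℤ, D (x + t) (y + t) = D x y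
  symm : ∀ x y : ℤ, D x y = D y x
  zero : ∀ x y : ℤ, D x y = 0 ↔ (n : ℤ) ∣ x - y
  nn : ∀ x y : ℤ, 0 ≤ D x y

variable {n : ℕ} {D : ℤ → ℤ → ℝ}

lemma UM.sub (h : UM n D) (x y : ℤ) : D x y = D 0 (y - x) := by
  have := h.shift x y (-x)
  rw [← this]; congr 1 <;> ring

lemma UM.neg (h : UM n D) (x : ℤ) : D 0 (-x) = D 0 x := by
  have := h.shift 0 (-x) x
  rw [← this, h.symm]; congr 1 <;> ring

lemma UM.nat_mul (h : UM n D) (t : ℕ) (x : ℤ) : D 0 (t * x) ≤ D 0 x := by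
  induction t with
  | zero =>
    have : D 0 (((0 : ℕ) : ℤ) * x) = 0 := (h.zero _ _).2 (by simp)
    rw [this]; exact h.nn _ _
  | succ t ih =>
    have h1 := h.tri 0 (((t + 1 : ℕ) : ℤ) * x) ((t : ℤ) * x)
    have h2 : D ((t : ℤ) * x) (((t + 1 : ℕ) : ℤ) * x) = D 0 x := by
      rw [h.sub]; congr 1; push_cast; ring
    rw [h2] at h1
    exact h1.trans (max_le ih le_rfl)

lemma UM.int_mul (h : UM n D) (t : ℤ) (x : ℤ) : D 0 (t * x) ≤ D 0 x := by
  rcases Int.eq_nat_or_neg t with ⟨k, rfl | rfl⟩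
  · exact h.nat_mul k x
  · rw [show -(k : ℤ) * x = -((k : ℤ) * x) by ring, h.neg]
    exact h.nat_mul k x

lemma UM.le_of_dvd (h : UM n D) (t a b : ℤ) (hd : (n : ℤ) ∣ a - t * b) : D 0 a ≤ D 0 b := by
  have h1 := h.tri 0 a (t * b)
  have h2 : D (t * b) a = 0 := by
    rw [h.symm]; exact (h.zero _ _).2 hd
  rw [h2] at h1
  exact h1.trans (max_le (h.int_mul t b) (h.nn _ _))

lemma UM.pos (h : UM n D) (a : ℤ) (hd : ¬ (n : ℤ) ∣ a) : 0 < D 0 a := by
  refine lt_of_le_of_ne (h.nn _ _) fun h0 => hd ?_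
  have := (h.zero 0 a).1 h0.symm
  simpa using this

/-- Not too many equidistant multiples. -/
lemma eqd (hR : S_RES) {L : Type} [Field L] (v : AbsoluteValue L ℝ) (p q e : ℕ)
    (hL : Loc v p q e) (V : ℤ → L × L) (c : ℤ → ℝ) (hc : ∀ i, 0 < c i)
    (h : UM n (dl v V c)) (m : ℤ) (s : ℝ) (hs : 0 < s)
    (ht : ∀ t : ℕ, 1 ≤ t → t ≤ q + 1 → dl v V c 0 (t * m) = s) : False := by
  refine hR L v p q e hL V c 0 (fun a : Fin (q + 1) => ((a.val + 1 : ℕ) : ℤ) * m) s s hc hs hs ?_ ?_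
  · intro a b hab
    rcases lt_or_gt_of_ne (fun hh => hab (Fin.ext hh) : a.val ≠ b.val) with hlt | hlt
    · rw [h.sub]
      rw [← ht (b.val - a.val) (by omega) (by have := b.isLt; omega)]
      congr 1
      rw [Nat.cast_sub hlt.le]; push_cast; ring
    · rw [h.symm, h.sub]
      rw [← ht (a.val - b.val) (by omega) (by have := a.isLt; omega)]
      congr 1
      rw [Nat.cast_sub hlt.le]; push_cast; ring
  · intro a
    rw [h.symm]
    exact ht (a.val + 1) (by omega) (by have := a.isLt; omega)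

/-- Inverse modulo `k`. -/
lemma inv_mod (t k : ℕ) (h : Nat.Coprime t k) : ∃ t' : ℤ, (k : ℤ) ∣ 1 - t' * t := by
  have := Int.isCoprime_iff_gcd_eq_one.2 (by simpa using h : Int.gcd (t : ℤ) (k : ℤ) = 1)
  obtain ⟨a, b, hab⟩ := this
  exact ⟨a, ⟨b, by linarith⟩⟩

theorem t_grow : S_ULT → S_RES → S_GROW := by
  intro hU hR L _ v p q e n V c hL hn hC r hr
  obtain ⟨u1, u2, u3, u4, u5⟩ := hU L v p q e n V c hL hn hC
  have h : UM n (dl v V c) := ⟨u1, u2, u3, u4, u5⟩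
  have hc : ∀ i, 0 < c i := hC.2.1
  have hnot : ∀ k : ℕ, 1 < k → k ∣ n → ¬ (n : ℤ) ∣ ((n / k : ℕ) : ℤ) := by
    intro k hk hkn hd
    have hd' : n ∣ n / k := by exact_mod_cast hd
    have hpos : 0 < n / k := Nat.div_pos (Nat.le_of_dvd (by omega) hkn) (by omega)
    have := Nat.le_of_dvd hpos hd'
    have h2 : n / k < n := Nat.div_lt_self (by omega) hk
    omega
  refine ⟨?_, ?_⟩
  · intro hrn
    by_contra hlt
    push Not at hlt
    refine eqd hR v p q e hL V c hc h ((n / r : ℕ) : ℤ) (dl v V c 0 ((n / r : ℕ) : ℤ))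
      (h.pos _ (hnot r hr.one_lt hrn)) ?_
    intro t ht1 ht2
    refine le_antisymm (h.nat_mul t _) ?_
    have hco : Nat.Coprime t r := by
      rw [Nat.coprime_comm]
      exact (Nat.Prime.coprime_iff_not_dvd hr).2 fun hd => by
        have := Nat.le_of_dvd (by omega) hd
        omega
    obtain ⟨t', ht'⟩ := inv_mod t r hco
    refine h.le_of_dvd t' _ _ ?_
    obtain ⟨w, hw⟩ := ht'
    refine ⟨w, ?_⟩
    have hnr : (n : ℤ) = (r : ℤ) * ((n / r : ℕ) : ℤ) := by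
      exact_mod_cast (Nat.mul_div_cancel' hrn).symm
    calc ((n / r : ℕ) : ℤ) - t' * (t * ((n / r : ℕ) : ℤ)) = (1 - t' * t) * ((n / r : ℕ) : ℤ) := by
          ring
      _ = (r : ℤ) * ((n / r : ℕ) : ℤ) * w := by rw [hw]; ring
      _ = n * w := by rw [← hnr]
  · intro j hj hd
    by_contra hle
    push Not at hle
    have hrpos : 0 < r := hr.pos
    have hdj : r ^ j ∣ n := (pow_dvd_pow r (by omega)).trans hd
    -- `n / r ^ j = r ^ q * (n / r ^ (j + q))`
    have hmul : ((n / r ^ j : ℕ) : ℤ) = (r : ℤ) ^ q * ((n / r ^ (j + q) : ℕ) : ℤ) := by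
      have : n / r ^ j = r ^ q * (n / r ^ (j + q)) := by
        have h1 : r ^ j * (n / r ^ j) = r ^ j * (r ^ q * (n / r ^ (j + q))) := by
          rw [Nat.mul_div_cancel' hdj, ← mul_assoc, ← pow_add, Nat.mul_div_cancel' hd]
        exact Nat.eq_of_mul_eq_mul_left (pow_pos hrpos j) h1
      exact_mod_cast this
    refine eqd hR v p q e hL V c hc h ((n / r ^ (j + q) : ℕ) : ℤ)
      (dl v V c 0 ((n / r ^ (j + q) : ℕ) : ℤ)) (h.pos _ (hnot _ ?_ hd)) ?_
    · exact Nat.one_lt_pow (by omega) hr.one_lt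
    intro t ht1 ht2
    refine le_antisymm (h.nat_mul t _) ?_
    refine le_trans hle ?_
    obtain ⟨k, t', htk, hte⟩ := Nat.exists_eq_pow_mul_and_not_dvd (n := t) (by omega) r hr.ne_one
    have hkq : k ≤ q := by
      by_contra hkq
      push Not at hkq
      have h1 : r ^ k ≤ t := by
        rw [hte]
        exact Nat.le_mul_of_pos_right _ (Nat.pos_of_ne_zero fun h0 => htk (by simp [h0]))
      have h2 : 2 ^ k ≤ r ^ k := Nat.pow_le_pow_left hr.two_le k
      have h3 : 2 ^ (q + 1) ≤ 2 ^ k := Nat.pow_le_pow_right (by norm_num) hkq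
      have h4 : q + 1 < 2 ^ (q + 1) := Nat.lt_two_pow_self
      omega
    have hco : Nat.Coprime t' (r ^ j) := by
      refine Nat.Coprime.pow_right j ?_
      rw [Nat.coprime_comm]
      exact (Nat.Prime.coprime_iff_not_dvd hr).2 htk
    obtain ⟨t'', ht''⟩ := inv_mod t' (r ^ j) hco
    refine h.le_of_dvd (t'' * (r : ℤ) ^ (q - k)) _ _ ?_
    obtain ⟨w, hw⟩ := ht''
    refine ⟨w, ?_⟩
    have hnr : (n : ℤ) = ((r ^ j : ℕ) : ℤ) * ((n / r ^ j : ℕ) : ℤ) := by
      exact_mod_cast (Nat.mul_div_cancel' hdj).symm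
    have hpow : (r : ℤ) ^ (q - k) * (r : ℤ) ^ k = (r : ℤ) ^ q := by
      rw [← pow_add]; congr 1; omega
    have hte' : (t : ℤ) = (r : ℤ) ^ k * t' := by exact_mod_cast hte
    calc ((n / r ^ j : ℕ) : ℤ) - t'' * (r : ℤ) ^ (q - k) * (t * ((n / r ^ (j + q) : ℕ) : ℤ))
        = ((n / r ^ j : ℕ) : ℤ) - t'' * t' *
            (((r : ℤ) ^ (q - k) * (r : ℤ) ^ k) * ((n / r ^ (j + q) : ℕ) : ℤ)) := by
          rw [hte']; ring
      _ = (1 - t'' * t') * ((n / r ^ j : ℕ) : ℤ) := by rw [hpow, ← hmul]; ring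
      _ = ((r ^ j : ℕ) : ℤ) * ((n / r ^ j : ℕ) : ℤ) * w := by rw [hw]; ring
      _ = n * w := by rw [← hnr]

end Pool.Agent.N727.UR
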